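import Pool.Agent.MP_8d06cc_nt.ST.Core
import Pool.Agent.MP_8d06cc_nt.DA.Pell

/-! The star case: normalisation and the final statement. -/

namespace Pool.Agent.MP_8d06cc_nt.ST

open Polynomial Finset IsLocalRing Pool.Agent.MP_8d06cc_nt.DA

noncomputable section

theorem Fn.unscale {L : Type} [Field L] {f P T l NN A B : L[X]} {u : L} (hu : u ≠ 0)
    (h : Fn (C (u ^ 2) * f) P T l NN A B) : Fn f P (C u⁻¹ * T) l NN A (C u * B) := by
  have e : C u * C u⁻¹ = (1 : L[X]) := by rw [← C_mul, mul_inv_cancel₀ hu, C_1]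
  have h0 := h.nn
  have h2 := h.o2
  rw [derivative_C_mul] at h2
  rw [C_pow] at h0 h2
  refine ⟨by linear_combination h0, by linear_combination h.o1 + B * T * e, ?_⟩
  rw [derivative_C_mul]
  linear_combination C u⁻¹ * h2
    + C u * ((2 * f * derivative B + derivative f * B) * P - f * B * l) * e

variable {L Γ : Type} [Field L] [LinearOrderedCommGroupWithZero Γ] {v : Valuation L Γ}

theorem inj (v : Valuation L Γ) : Function.Injective (algebraMap v.integer L) :=
  (Valuation.integer.integers v).hom_inj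

theorem mem_max {z : v.integer} : z ∈ maximalIdeal v.integer ↔ v (algebraMap _ L z) < 1 :=
  Valuation.Integer.not_isUnit_iff_valuation_lt_one

theorem lift0 {z : L} (h : v z ≤ 1) : ∃ y : v.integer, algebraMap _ L y = z := ⟨⟨z, h⟩, rfl⟩

theorem lift2 (v : Valuation L Γ) {A B : L[X]} (h : A ≠ 0) :
    ∃ (t : L) (A' B' : v.integer[X]), t ≠ 0 ∧ A'.map (algebraMap _ L) = C t * A ∧
      B'.map (algebraMap _ L) = C t * B ∧ (A'.map (residue _) ≠ 0 ∨ B'.map (residue _) ≠ 0) := by
  obtain ⟨d, hd, e⟩ := IsLocalization.integerNormalization_spec (nonZeroDivisors v.integer) A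
  obtain ⟨d', hd', e'⟩ := IsLocalization.integerNormalization_spec (nonZeroDivisors v.integer) B
  generalize IsLocalization.integerNormalization (nonZeroDivisors v.integer) A = A₀ at e
  generalize IsLocalization.integerNormalization (nonZeroDivisors v.integer) B = B₀ at e'
  rw [← algebraMap_smul L, smul_eq_C_mul] at e e'
  have h1 := (map_ne_zero_iff _ (inj v)).2 (nonZeroDivisors.ne_zero hd)
  have h2 := nonZeroDivisors.ne_zero hd'
  have hA : A₀ ≠ 0 := fun h0 =>
    mul_ne_zero (C_ne_zero.2 h1) h (by rw [← e, h0, Polynomial.map_zero])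
  obtain ⟨s, A₁, B₁, hs, e1, e2, h3⟩ :=
    prim2 (A := C d' * A₀) (B := C d * B₀) (Or.inl (mul_ne_zero (C_ne_zero.2 h2) hA))
  have hs' := (map_ne_zero_iff _ (inj v)).2 hs
  have e3 := congrArg (Polynomial.map (algebraMap _ L)) e1
  have e4 := congrArg (Polynomial.map (algebraMap _ L)) e2
  simp only [Polynomial.map_mul, map_C, e, e'] at e3 e4
  have e5 : C (algebraMap _ L s)⁻¹ * C (algebraMap _ L s) = (1 : L[X]) := by
    rw [← C_mul, inv_mul_cancel₀ hs', C_1]
  refine ⟨(algebraMap _ L s)⁻¹ * (algebraMap _ L d' * algebraMap _ L d), A₁, B₁, mul_ne_zero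
    (inv_ne_zero hs') (mul_ne_zero ((map_ne_zero_iff _ (inj v)).2 h2) h1), ?_, ?_, h3⟩ <;>
    rw [C_mul, C_mul]
  · linear_combination -C (algebraMap _ L s)⁻¹ * e3 - A₁.map (algebraMap _ L) * e5
  · linear_combination -C (algebraMap _ L s)⁻¹ * e4 - B₁.map (algebraMap _ L) * e5

theorem norm1 [CharZero (ResidueField v.integer)] {g M : v.integer[X]}
    (hg : g.map (residue _) = M.map (residue _) ^ 2) {N : ℕ} {D : PD L} {u : L} (hu : v u = 1)
    (h : D.OK (C (u ^ 2) * g.map (algebraMap _ L)) N) (hQ : D.Q ≠ 0) {a : v.integer}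
    (ha : algebraMap _ L a = D.a)
    (hc : ∃ i, v D.c < v (D.A.coeff i) ^ 2 ∨ v D.c < v (D.B.coeff i) ^ 2) :
    ∃ (c : v.integer) (A B Q : v.integer[X]) (σ : L),
      Fn g (X - C a) (2 * N * Q) (2 * N) (C c * (X - C a) ^ (2 * N)) A B ∧
      c ∈ maximalIdeal v.integer ∧ c ≠ 0 ∧ B.map (residue _) ≠ 0 ∧
      A.map (residue _) + B.map (residue _) * M.map (residue _) = 0 ∧
      Q.map (algebraMap _ L) = C σ * D.Q ∧ σ ^ 2 * u ^ 2 = 1 := by
  have hu0 : u ≠ 0 := fun h0 => by rw [h0, map_zero] at hu; exact zero_ne_one hu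
  have hA : D.A ≠ 0 := fun h0 => h.hA (by rw [h0, eval_zero])
  obtain ⟨t, A, B, ht, eA, eB, hAB⟩ := lift2 v (B := C u * D.B) hA
  have F := ((fn_of_ok h).unscale hu0).smul t
  rw [← eA, ← eB, ← mul_assoc (C (t ^ 2)), ← C_mul] at F
  have hlt : v (t ^ 2 * D.c) < 1 := by
    have ht2 : 0 < v t ^ 2 := pow_pos ((Valuation.pos_iff v).2 ht) 2
    obtain ⟨i, hi⟩ := hc
    have a1 : v t * v (D.A.coeff i) ≤ 1 := by
      rw [← map_mul, ← coeff_C_mul, ← eA, coeff_map]; exact (A.coeff i).2
    have a2 : v t * v (D.B.coeff i) ≤ 1 := by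
      rw [← one_mul (v (D.B.coeff i)), ← hu, ← map_mul, ← map_mul, ← coeff_C_mul, ← coeff_C_mul,
        ← eB, coeff_map, hu]
      exact (B.coeff i).2
    rw [map_mul, map_pow]
    rcases hi with hi | hi
    · exact (mul_lt_mul_of_pos_left hi ht2).trans_le
        (by rw [← mul_pow]; exact pow_le_one₀ zero_le a1)
    · exact (mul_lt_mul_of_pos_left hi ht2).trans_le
        (by rw [← mul_pow]; exact pow_le_one₀ zero_le a2)
  obtain ⟨c, ec⟩ := lift0 hlt.le
  have hcm : c ∈ maximalIdeal v.integer := mem_max.2 (ec ▸ hlt)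
  have hc0 : c ≠ 0 := fun h0 => mul_ne_zero (pow_ne_zero 2 ht) h.hc (by rw [← ec, h0, map_zero])
  rw [← ec, ← ha] at F
  have nn : A ^ 2 - g * B ^ 2 = C c * (X - C a) ^ (2 * N) := map_injective _ (inj v) (by
    simpa only [Polynomial.map_sub, Polynomial.map_mul, Polynomial.map_pow, map_C, map_X]
      using F.nn)
  have n0 := congrArg (Polynomial.map (residue _)) nn
  simp only [Polynomial.map_sub, Polynomial.map_mul, Polynomial.map_pow, map_C, hg,
    (residue_eq_zero_iff _).2 hcm, C_0, zero_mul] at n0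
  have hB : B.map (residue _) ≠ 0 := fun h0 => by
    rw [h0, zero_pow two_ne_zero, mul_zero, sub_zero] at n0
    exact hAB.elim (fun h1 => h1 (pow_eq_zero_iff two_ne_zero |>.1 n0)) fun h1 => h1 h0
  obtain ⟨Q, eQ⟩ : ∃ Q : v.integer[X], Q.map (algebraMap _ L) = C u⁻¹ * D.Q := by
    obtain ⟨t', Q, Z, ht', eQ, eZ, hZ⟩ :=
      lift2 v (B := 0) (mul_ne_zero (C_ne_zero.2 (inv_ne_zero hu0)) hQ)
    have hZ0 : Z = 0 := map_injective _ (inj v) (by rw [eZ, mul_zero, Polynomial.map_zero])
    have hQ0 : Q.map (residue _) ≠ 0 :=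
      hZ.resolve_right fun h1 => h1 (by rw [hZ0, Polynomial.map_zero])
    rcases lt_or_ge (v t') 1 with h1 | h1
    · exfalso
      obtain ⟨τ, eτ⟩ := lift0 h1.le
      have h2 : B * (2 * (N : v.integer[X]) * Q) =
          C τ * (2 * derivative A * (X - C a) - A * (2 * (N : v.integer[X]))) :=
        map_injective _ (inj v) (by
          simp only [Polynomial.map_sub, Polynomial.map_mul, Polynomial.map_natCast,
            Polynomial.map_ofNat, map_C, map_X, ← derivative_map, eQ, eτ]
          linear_combination C t' * F.o1)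
      have h3 := congrArg (Polynomial.map (residue _)) h2
      simp only [Polynomial.map_mul, Polynomial.map_natCast, Polynomial.map_ofNat, map_C,
        (residue_eq_zero_iff _).2 (mem_max.2 (eτ ▸ h1)), C_0, zero_mul] at h3
      exact mul_ne_zero hB (mul_ne_zero (mul_ne_zero two_ne_zero
        (Nat.cast_ne_zero.2 h.pos.ne')) hQ0) h3
    · obtain ⟨τ, eτ⟩ := lift0 (v := v) (z := t'⁻¹)
        (by rw [map_inv₀]; exact inv_le_one_of_one_le₀ h1)
      exact ⟨C τ * Q, by
        rw [Polynomial.map_mul, map_C, eτ, eQ, ← mul_assoc, ← C_mul, inv_mul_cancel₀ ht', C_1,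
          one_mul]⟩
  have G : Fn g (X - C a) (2 * N * Q) (2 * N) (C c * (X - C a) ^ (2 * N)) A B :=
    Fn.of_map _ (inj v) (F.cast (by simp) (by
      simp only [Polynomial.map_mul, Polynomial.map_natCast, Polynomial.map_ofNat, eQ]; ring)
      (by simp) (by simp))
  have n1 : (A.map (residue _) + B.map (residue _) * M.map (residue _)) *
      (A.map (residue _) - B.map (residue _) * M.map (residue _)) = 0 := by linear_combination n0
  rcases mul_eq_zero.1 n1 with h1 | h1
  · exact ⟨c, A, B, Q, u⁻¹, G, hcm, hc0, hB, h1, eQ, by field_simp⟩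
  · refine ⟨c, A, -B, -Q, -u⁻¹, G.conj.cast rfl (by ring) rfl rfl, hcm, hc0, ?_, ?_, ?_,
      by field_simp⟩
    · rwa [Polynomial.map_neg, neg_ne_zero]
    · rw [Polynomial.map_neg]; linear_combination h1
    · rw [Polynomial.map_neg, eQ, C_neg, neg_mul]

end

theorem star : S_STAR := by
  intro L Γ _ _ v f N P u e e' hn arch hf hu he hee hne hlt hlt1 hP hc hrk
  have : CharZero L := ⟨fun a b h => by
    by_contra hab
    wlog hl : a < b generalizing a b
    · exact this b a h.symm (Ne.symm hab) (by omega)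
    have := hn (b - a) (by omega)
    rw [Nat.cast_sub hl.le, h, sub_self, map_zero] at this
    exact zero_ne_one this⟩
  have hv := Valuation.integer.integers v
  obtain ⟨ι⟩ : Nonempty (ℚ →+* v.integer) := ⟨IsLocalization.lift (M := nonZeroDivisors ℤ)
    (g := Int.castRingHom v.integer) fun y => hv.isUnit_of_one' (by
      have := hn y.1.natAbs (Int.natAbs_ne_zero.2 (nonZeroDivisors.ne_zero y.2))
      rw [eq_intCast, map_intCast]
      rcases Int.natAbs_eq y.1 with h | h <;> rw [h]
      · rwa [Int.cast_natCast]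
      · rwa [Int.cast_neg, Int.cast_natCast, Valuation.map_neg])⟩
  have : CharZero (ResidueField v.integer) :=
    charZero_of_injective_ringHom ((residue _).comp ι).injective
  have h2 : v 2 = 1 := by exact_mod_cast hn 2 two_ne_zero
  have hη : ∀ k, v ((e' k - e k) / 2) = v (e' k - e k) := fun k => by
    rw [map_div₀, h2, div_one]
  have hη1 : ∀ k, v ((e' k - e k) / 2) < 1 := fun k => (hη k).trans_lt ((hlt k).trans (hlt1 k))
  choose η eη using fun k => lift0 (hη1 k).le
  choose x ex using fun k => lift0 (v.map_add_le (he k) (hη1 k).le)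
  choose a ea using fun k => lift0 (v := v) (z := (P k).a) (by
    simpa using v.map_add_le (he k) (hlt1 k).le)
  have ef : f = C (u ^ 2) * (ff x η).map (algebraMap _ L) := by
    rw [hf, map_ff, ff]
    refine congrArg _ (prod_congr rfl fun k _ => ?_)
    have : e' k = e k + (e' k - e k) / 2 + (e' k - e k) / 2 := by ring
    rw [ex, eη]
    generalize (e' k - e k) / 2 = z at this
    rw [this]
    simp only [map_add, map_pow]
    ring
  have hdeg : f.natDegree ≤ 8 := by
    rw [hf]
    refine (natDegree_C_mul_le _ _).trans ((natDegree_prod_le _ _).trans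
      ((sum_le_card_nsmul _ _ 2 fun i _ => natDegree_mul_le.trans ?_).trans (by simp)))
    simp
  have hb := fun k => pellS.basic L f N (P k) hdeg (hP k)
  have hvd : ∀ k, v (algebraMap _ L (a k - x k)) = v ((P k).a - e k) := fun k => by
    rw [map_sub, ea, ex, ← sub_sub]
    exact v.map_sub_eq_of_lt_left ((hη k).trans_lt (hlt k))
  have hg : (ff x η).map (residue _) = (N4 x).map (residue _) ^ 2 := by
    rw [map_N4]
    exact map_ff_sq _ _ _ fun j => by
      rw [map_pow, (residue_eq_zero_iff _).2 (mem_max.2 (eη j ▸ hη1 j)), zero_pow two_ne_zero]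
  choose c A B Q σ hF hcm hc0 hB sg eQ hσ using fun k => norm1 hg hu (ef ▸ hP k)
    (fun h0 => (hb k).2.1 (by rw [← (hb k).2.2.2.1, h0, eval_zero])) (ea k) (hc k)
  have evQ : ∀ k z, algebraMap _ L ((Q k).eval z) = σ k * (P k).Q.eval (algebraMap _ L z) :=
    fun k z => by rw [← eval_map_apply, eQ, eval_mul, eval_C]
  refine Cfg.false (N := N) (x := x) (η := η) (a := a) (c := c) (A := A) (B := B) (Q := Q)
    ⟨(hP 0).pos, fun k l hkl => hv.isUnit_of_one' ?_, fun k => mem_max.2 (hvd k ▸ hlt1 k),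
      fun k => ?_, fun k h0 => ?_, hF, hcm, hc0, hB, fun k => map_N4 (residue _) x ▸ sg k,
      fun k => ?_, fun k => inj v ?_, fun k l p i j q => inj v ?_⟩ ι fun z hz y hy => ?_
  · rw [map_sub, ex, ex, add_sub_add_comm, ← hee k l hkl]
    exact v.map_add_eq_of_lt_left ((hee k l hkl).symm ▸ v.map_sub_lt (hη1 k) (hη1 l))
  · have h1 : v (algebraMap _ L (η k)) < v (algebraMap _ L (a k - x k)) := by
      rw [hvd, eη, hη]; exact hlt k
    have h0 : algebraMap _ L (a k - x k) ≠ 0 := (Valuation.pos_iff v).1 (zero_le.trans_lt h1)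
    have h3 : v (algebraMap _ L (η k) / algebraMap _ L (a k - x k)) < 1 := by
      rw [map_div₀]; exact (div_lt_one₀ (zero_le.trans_lt h1)).2 h1
    obtain ⟨s, es⟩ := lift0 h3.le
    exact ⟨s, mem_max.2 (es ▸ h3), inj v (by rw [map_mul, es, mul_div_cancel₀ _ h0])⟩
  · have := eη k
    rw [h0, map_zero, eq_comm, div_eq_zero_iff, sub_eq_zero] at this
    exact this.elim (hne k).symm two_ne_zero
  · rw [← natDegree_map_eq_of_injective (inj v), eQ]
    exact (natDegree_C_mul_le _ _).trans (hb k).2.2.2.2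
  · have h1 := (hb k).2.2.1
    rw [ef, eval_mul, eval_C] at h1
    rw [map_pow, evQ, ← eval_map_apply, ea, (hb k).2.2.2.1]
    linear_combination σ k ^ 2 * h1 + ((ff x η).map (algebraMap _ L)).eval (P k).a * hσ k
  · obtain ⟨i₁, i₂, -, hr⟩ := hrk
    obtain ⟨u₁, v₁, e₁⟩ := hr k
    obtain ⟨u₂, v₂, e₂⟩ := hr l
    obtain ⟨u₃, v₃, e₃⟩ := hr p
    simp only [det3, map_add, map_sub, map_mul, map_zero, evQ]
    rw [e₁, e₂, e₃]
    simp only [eval_add, eval_mul, eval_C]
    ring
  · obtain ⟨n, h1⟩ := arch _ _ (mem_max.1 hz) ((map_ne_zero_iff _ (inj v)).2 hy)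
    exact ⟨n, hv.dvd_of_le (by rwa [map_pow, map_pow])⟩

end Pool.Agent.MP_8d06cc_nt.ST
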