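import Pool.Agent.MP_8d06cc_nt.ST.Res

/-! The star case over the valuation ring. -/

namespace Pool.Agent.MP_8d06cc_nt.ST

open Polynomial Finset IsLocalRing

noncomputable section

/-- the octic with roots `x j ± η j` -/
def ff {R : Type} [CommRing R] (x η : Fin 4 → R) : R[X] := ∏ j, ((X - C (x j)) ^ 2 - C (η j ^ 2))

theorem map_ff {R S : Type} [CommRing R] [CommRing S] (g : R →+* S) (x η : Fin 4 → R) :
    (ff x η).map g = ff (fun j => g (x j)) fun j => g (η j) := by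
  simp [ff, Polynomial.map_prod]

theorem map_ff_sq {R S : Type} [CommRing R] [CommRing S] (g : R →+* S) (x η : Fin 4 → R)
    (h : ∀ j, g (η j ^ 2) = 0) : (ff x η).map g = N4 (fun j => g (x j)) ^ 2 := by
  simp only [ff, N4, Polynomial.map_prod, Polynomial.map_sub, Polynomial.map_pow, map_C, map_X, h,
    C_0, sub_zero, prod_pow]

variable {O : Type} [CommRing O] [IsDomain O] [ValuationRing O]

theorem exists_dvd_all {ι : Type} (s : Finset ι) (hs : s.Nonempty) (g : ι → O) :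
    ∃ i ∈ s, ∀ j ∈ s, g i ∣ g j := by
  induction hs using Finset.Nonempty.cons_induction with
  | singleton a => exact ⟨a, mem_singleton_self a, fun j hj => by rw [mem_singleton.1 hj]⟩
  | cons a s ha hs ih =>
    obtain ⟨i, hi, h⟩ := ih
    rcases ValuationRing.dvd_total (g a) (g i) with h1 | h1
    · refine ⟨a, mem_cons_self _ _, fun j hj => ?_⟩
      rcases mem_cons.1 hj with rfl | hj
      exacts [dvd_rfl, h1.trans (h j hj)]
    · refine ⟨i, mem_cons_of_mem hi, fun j hj => ?_⟩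
      rcases mem_cons.1 hj with rfl | hj
      exacts [h1, h j hj]

theorem prim1 {A : O[X]} (hA : A ≠ 0) :
    ∃ s A₁, s ≠ 0 ∧ A = C s * A₁ ∧ A₁.map (residue O) ≠ 0 := by
  obtain ⟨i, hi, h⟩ := exists_dvd_all A.support (support_nonempty.2 hA) A.coeff
  have hs := mem_support_iff.1 hi
  obtain ⟨A₁, e⟩ := (C_dvd_iff_dvd_coeff (A.coeff i) A).2 fun j => by
    by_cases hj : j ∈ A.support
    · exact h j hj
    · rw [notMem_support_iff.1 hj]; exact dvd_zero _
  refine ⟨_, A₁, hs, e, fun h0 => ?_⟩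
  have h1 := congrArg (fun p => p.coeff i) e
  have h2 := congrArg (fun p => p.coeff i) h0
  simp only [coeff_C_mul] at h1
  simp only [coeff_map, coeff_zero] at h2
  rw [← mul_left_cancel₀ hs ((mul_one _).trans h1), map_one] at h2
  exact one_ne_zero h2

theorem prim2 {A B : O[X]} (h : A ≠ 0 ∨ B ≠ 0) : ∃ s A₁ B₁, s ≠ 0 ∧ A = C s * A₁ ∧ B = C s * B₁ ∧
    (A₁.map (residue O) ≠ 0 ∨ B₁.map (residue O) ≠ 0) := by
  by_cases hA : A = 0
  · obtain ⟨s, B₁, h1, h2, h3⟩ := prim1 (h.resolve_left fun h => h hA)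
    exact ⟨s, 0, B₁, h1, by rw [hA, mul_zero], h2, Or.inr h3⟩
  obtain ⟨s, A₁, h1, h2, h3⟩ := prim1 hA
  by_cases hB : B = 0
  · exact ⟨s, A₁, 0, h1, h2, by rw [hB, mul_zero], Or.inl h3⟩
  obtain ⟨t, B₁, k1, k2, k3⟩ := prim1 hB
  rcases ValuationRing.dvd_total s t with ⟨u, rfl⟩ | ⟨u, rfl⟩
  · exact ⟨s, A₁, C u * B₁, h1, h2, by rw [k2, C_mul, mul_assoc], Or.inl h3⟩
  · exact ⟨t, C u * A₁, B₁, k1, by rw [h2, C_mul, mul_assoc], k2, Or.inr k3⟩

/-- the normalised integral data -/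
structure Cfg (N : ℕ) (x η a c : Fin 4 → O) (A B Q : Fin 4 → O[X]) : Prop where
  hN : 0 < N
  hx : ∀ k l, k ≠ l → IsUnit (x k - x l)
  hd : ∀ k, a k - x k ∈ maximalIdeal O
  hs : ∀ k, ∃ s ∈ maximalIdeal O, η k = (a k - x k) * s
  hη : ∀ k, η k ≠ 0
  fn : ∀ k, Fn (ff x η) (X - C (a k)) (2 * N * Q k) (2 * N) (C (c k) * (X - C (a k)) ^ (2 * N))
    (A k) (B k)
  hc : ∀ k, c k ∈ maximalIdeal O
  hc0 : ∀ k, c k ≠ 0
  hB : ∀ k, (B k).map (residue O) ≠ 0
  sg : ∀ k, (A k).map (residue O) + (B k).map (residue O) * N4 (fun j => residue O (x j)) = 0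
  dQ : ∀ k, (Q k).natDegree ≤ 3
  hb : ∀ k, (Q k).eval (a k) ^ 2 = (ff x η).eval (a k)
  rk : ∀ k l p i j q, det3 (fun k j => (Q k).eval (x j)) k l p i j q = 0

variable {N : ℕ} {x η a c : Fin 4 → O} {A B Q : Fin 4 → O[X]}

theorem Cfg.res_a (h : Cfg N x η a c A B Q) (k : Fin 4) : residue O (a k) = residue O (x k) := by
  rw [← sub_eq_zero, ← map_sub]; exact (residue_eq_zero_iff _).2 (h.hd k)

theorem Cfg.res_η (h : Cfg N x η a c A B Q) (k : Fin 4) : residue O (η k) = 0 := by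
  obtain ⟨s, hs, e⟩ := h.hs k
  rw [e, map_mul, (residue_eq_zero_iff _).2 hs, mul_zero]

theorem Cfg.res_f (h : Cfg N x η a c A B Q) :
    (ff x η).map (residue O) = N4 (fun j => residue O (x j)) ^ 2 :=
  map_ff_sq _ _ _ fun j => by rw [map_pow, h.res_η, zero_pow two_ne_zero]

theorem Cfg.res_x (h : Cfg N x η a c A B Q) (k l : Fin 4) (hkl : k ≠ l) :
    IsUnit (residue O (x k) - residue O (x l)) := by
  rw [← map_sub]; exact (h.hx k l hkl).map _

theorem Cfg.gp (h : Cfg N x η a c A B Q) :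
    GP N (N4 (fun j => residue O (x j)) ^ 2) (fun j => residue O (x j))
      (fun k => (Q k).map (residue O)) fun A B => A ≠ 0 ∨ B ≠ 0 := by
  intro k l α β
  obtain ⟨A₁, B₁, h1, -⟩ := ((h.fn k).wid (X - C (a l))).pow α
  obtain ⟨A₂, B₂, h2, -⟩ :=
    (((h.fn l).wid (X - C (a k))).conj.cast (mul_comm _ _) rfl rfl rfl).pow β
  have h3 := (h1.mul h2).cast rfl rfl rfl (NN' := C (c k ^ α * c l ^ β) *
    ((X - C (a k)) ^ (2 * N * α) * (X - C (a l)) ^ (2 * N * β))) (by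
      simp only [map_mul, map_pow, mul_pow, pow_mul]; ring)
  have hM : ((X - C (a k)) ^ (2 * N * α) * (X - C (a l)) ^ (2 * N * β)).Monic :=
    ((monic_X_sub_C _).pow _).mul ((monic_X_sub_C _).pow _)
  generalize A₁ * A₂ + ff x η * B₁ * B₂ = A₃, A₁ * B₂ + A₂ * B₁ = B₃ at h3
  have h4 : A₃ ≠ 0 ∨ B₃ ≠ 0 := by
    by_contra hn
    push Not at hn
    have := h3.nn
    rw [hn.1, hn.2] at this
    exact mul_ne_zero (C_ne_zero.2 (mul_ne_zero (pow_ne_zero α (h.hc0 k))
      (pow_ne_zero β (h.hc0 l)))) hM.ne_zero (by rw [← this]; ring)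
  obtain ⟨s, A₄, B₄, hs, rfl, rfl, h5⟩ := prim2 h4
  obtain ⟨c', -, h6⟩ := h3.cancel hs hM
  have h7 := h6.map (residue O)
  rw [h.res_f] at h7
  refine ⟨_, _, residue O c', h5, h7.cast ?_ ?_ ?_ ?_⟩ <;>
    simp only [Polynomial.map_mul, Polynomial.map_sub, Polynomial.map_add, Polynomial.map_neg,
      Polynomial.map_pow, Polynomial.map_natCast, Polynomial.map_ofNat, map_X, map_C, h.res_a] <;>
    ring

theorem Cfg.s2 (h : Cfg N x η a c A B Q) (ι : ℚ →+* O) (I : Ideal O) (hI : I ≤ maximalIdeal O)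
    (hη : ∀ j, η j ^ 2 ∈ I) (k j : Fin 4) (hkj : k ≠ j) {n : ℕ} (hn : 0 < n) (hc : c k ^ n ∈ I) :
    ∃ r : ℚ, 0 < r ∧ (Q k).eval (x j) - ι r * ((a k - x j) * (Nj x j).eval (x j)) ∈ I := by
  have : CharZero (ResidueField O) :=
    charZero_of_injective_ringHom ((residue O).comp ι).injective
  obtain ⟨π, hπ⟩ : ∃ π : O →+* O ⧸ I, π = Ideal.Quotient.mk I := ⟨_, rfl⟩
  have hπ0 : ∀ z, π z = 0 ↔ z ∈ I := fun z => by rw [hπ, Ideal.Quotient.eq_zero_iff_mem]
  obtain ⟨ρ, hρ⟩ : ∃ ρ : O ⧸ I →+* ResidueField O, ∀ z, ρ (π z) = residue O z :=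
    ⟨Ideal.Quotient.lift I (residue O) fun z hz => (residue_eq_zero_iff _).2 (hI hz),
      fun z => by rw [hπ, Ideal.Quotient.lift_mk]⟩
  have hρ' : ∀ p : O[X], (p.map π).map ρ = p.map (residue O) := fun p => by
    rw [Polynomial.map_map, show ρ.comp π = residue O from RingHom.ext hρ]
  have hu : ∀ z, ρ z ≠ 0 → IsUnit z := fun z hz => by
    obtain ⟨z, rfl⟩ := (hπ ▸ Ideal.Quotient.mk_surjective : Function.Surjective π) z
    rw [hρ] at hz
    exact ((residue_ne_zero_iff_isUnit _).1 hz).map _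
  obtain ⟨A', B', h1, h2⟩ := (h.fn k).pow n
  have p1 := h2 _ (residue O) _ h.res_f
  have p2 := h2 _ (residue O) (-_) (h.res_f.trans (neg_sq _).symm)
  rw [h.sg k, zero_pow hn.ne'] at p1
  have hN4 := N4_ne fun j => residue O (x j)
  have p3 : A'.map (residue O) + B'.map (residue O) * -N4 (fun j => residue O (x j)) ≠ 0 := by
    rw [p2]
    refine pow_ne_zero _ fun h0 => mul_ne_zero (mul_ne_zero two_ne_zero (h.hB k)) hN4 ?_
    linear_combination h.sg k - h0
  have p4 : B'.map (residue O) ≠ 0 := fun h0 => p3 (by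
    rw [h0] at p1 ⊢; linear_combination p1)
  have h3 := h1.map π
  rw [map_ff_sq π _ _ fun j => (hπ0 _).2 (hη j)] at h3
  have hn0 := h3.nn
  have ho := h3.o1
  rw [mul_pow, ← C_pow, Polynomial.map_mul, map_C, (hπ0 _).2 hc, C_0, zero_mul] at hn0
  have hA : A'.map π + B'.map π * N4 (fun j => π (x j)) = 0 := by
    refine prim_cancel ρ hu (p := A'.map π + B'.map π * -N4 fun j => π (x j)) ?_
      (by linear_combination hn0)
    rw [Polynomial.map_add, Polynomial.map_mul, Polynomial.map_neg, map_N4, hρ', hρ']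
    simpa only [hρ] using p3
  rw [eq_neg_of_add_eq_zero_left hA, derivative_neg, derivative_mul] at ho
  simp only [Polynomial.map_mul, Polynomial.map_sub, Polynomial.map_natCast, Polynomial.map_ofNat,
    map_X, map_C] at ho
  have hua : IsUnit (a k - x j) := by
    have := unit_add (h.hx k j hkj) (h.hd k)
    rwa [show x k - x j + (a k - x k) = a k - x j by ring] at this
  have eN : (Nj (fun j => π (x j)) j).eval (π (x j)) = π ((Nj x j).eval (x j)) :=
    (map_eval_Nj π x j).symm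
  obtain ⟨μ, hμ⟩ := ordL ρ hu (x := π (x j))
    (S₂ := -2 * Nj (fun j => π (x j)) j * (X - C (π (a k)))) (by
      have e : (-2 * Nj (fun j => π (x j)) j * (X - C (π (a k)))).eval (π (x j)) =
          π (ι 2 * (Nj x j).eval (x j) * (a k - x j)) := by
        simp only [eval_mul, eval_neg, eval_ofNat, eval_sub, eval_X, eval_C, eN, map_mul, map_sub,
          map_ofNat]
        ring
      rw [e, hρ, residue_ne_zero_iff_isUnit]
      exact (((two_ne_zero.isUnit).map ι).mul (unit_Nj h.hx j)).mul hua) _ (B'.map π)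
    ((n : (O ⧸ I)[X]) * (2 * (N : (O ⧸ I)[X]) * (Q k).map π)
      - N4 (fun j => π (x j)) * ((n : (O ⧸ I)[X]) * (2 * (N : (O ⧸ I)[X])))
      + 2 * derivative (N4 fun j => π (x j)) * (X - C (π (a k)))) (by rwa [hρ']) rfl (by
      linear_combination ho + 2 * (X - C (π (a k))) * derivative (B'.map π) *
        mul_Nj (fun j => π (x j)) j)
  have eD : (derivative (N4 fun j => π (x j))).eval (π (x j)) = π ((Nj x j).eval (x j)) := by
    rw [← mul_Nj _ j, ← eN]; simp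
  have e0 : (N4 fun j => π (x j)).eval (π (x j)) = 0 := eval_N4 (fun j => π (x j)) j
  simp only [eval_add, eval_mul, eval_neg, eval_ofNat, eval_sub, eval_X, eval_C, eN, eD, e0,
    eval_natCast, eval_map_apply] at hμ
  have hN := h.hN
  refine ⟨(μ + 1) / (n * N), by positivity, ?_⟩
  rw [← Ideal.unit_mul_mem_iff_mem _
    (((show ((2 * n * N : ℕ) : ℚ) ≠ 0 by positivity).isUnit).map ι), ← hπ0]
  have e1 : ι ((2 * n * N : ℕ) : ℚ) * ι ((μ + 1) / (n * N)) = 2 * (μ + 1) := by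
    rw [← map_mul, show ((2 * n * N : ℕ) : ℚ) * ((μ + 1) / (n * N)) = ((2 * (μ + 1) : ℕ) : ℚ) by
      push_cast; field_simp, map_natCast]
    push_cast; ring
  rw [mul_sub, ← mul_assoc, e1, map_natCast]
  simp only [map_mul, map_sub, map_add, map_natCast, map_ofNat, map_one, Nat.cast_mul,
    Nat.cast_ofNat]
  linear_combination hμ

theorem Cfg.bb (h : Cfg N x η a c A B Q) (k : Fin 4) : ∃ (β : O) (ε : ℚ), (ε = 1 ∨ ε = -1) ∧
    (Q k).eval (a k) = (a k - x k) * β ∧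
    residue O β = ε * residue O ((Nj x k).eval (x k)) := by
  obtain ⟨s, hs, e⟩ := h.hs k
  have hδ : a k - x k ≠ 0 := fun h0 => h.hη k (by rw [e, h0, zero_mul])
  have e1 : (Q k).eval (a k) ^ 2 = (a k - x k) ^ 2 *
      ((1 - s ^ 2) * ∏ j ∈ univ.erase k, ((a k - x j) ^ 2 - η j ^ 2)) := by
    rw [h.hb, ff, eval_prod, ← mul_prod_erase univ _ (mem_univ k)]
    simp only [eval_sub, eval_pow, eval_X, eval_C]
    rw [e]; ring
  obtain ⟨β, hβ⟩ := (IsIntegrallyClosed.pow_dvd_pow_iff two_ne_zero).1 ⟨_, e1⟩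
  rw [hβ, mul_pow] at e1
  have e2 := congrArg (residue O) (mul_left_cancel₀ (pow_ne_zero 2 hδ) e1)
  simp only [map_pow, map_mul, map_sub, map_prod, map_one, (residue_eq_zero_iff _).2 hs, h.res_η,
    h.res_a, zero_pow two_ne_zero, sub_zero, one_mul, prod_pow] at e2
  have e3 : residue O ((Nj x k).eval (x k)) =
      ∏ j ∈ univ.erase k, (residue O (x k) - residue O (x j)) := by
    simp only [eval_Nj, map_prod, map_sub]
  rw [← e3] at e2
  rcases sq_eq_sq_iff_eq_or_eq_neg.1 e2 with h1 | h1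
  · exact ⟨β, 1, Or.inl rfl, hβ, by rw [h1, Rat.cast_one, one_mul]⟩
  · exact ⟨β, -1, Or.inr rfl, hβ, by rw [h1, Rat.cast_neg, Rat.cast_one, neg_one_mul]⟩

theorem Cfg.false (h : Cfg N x η a c A B Q) (ι : ℚ →+* O)
    (arch : ∀ z ∈ maximalIdeal O, ∀ y : O, y ≠ 0 → ∃ n : ℕ, y ∣ z ^ n) : False := by
  have : CharZero (ResidueField O) :=
    charZero_of_injective_ringHom ((residue O).comp ι).injective
  have hι : ∀ q : ℚ, residue O (ι q) = q := fun q => eq_ratCast ((residue O).comp ι) q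
  obtain ⟨i, -, hi⟩ := exists_dvd_all univ univ_nonempty η
  obtain ⟨s, hs, e⟩ := h.hs i
  have hI : ∀ z ∈ Ideal.span {η i ^ 2}, ∃ t ∈ maximalIdeal O, z = (a i - x i) ^ 2 * t := by
    intro z hz
    obtain ⟨t, rfl⟩ := Ideal.mem_span_singleton.1 hz
    exact ⟨s * (s * t), Ideal.mul_mem_right _ _ hs, by rw [e]; ring⟩
  have hI' : Ideal.span {η i ^ 2} ≤ maximalIdeal O := fun z hz => by
    obtain ⟨t, ht, rfl⟩ := hI z hz
    exact Ideal.mul_mem_left _ _ ht
  have h2 : ∀ k j, ∃ r : ℚ, k ≠ j → 0 < r ∧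
      (Q k).eval (x j) - ι r * ((a k - x j) * (Nj x j).eval (x j)) ∈ Ideal.span {η i ^ 2} := by
    intro k j
    by_cases hkj : k = j
    · exact ⟨0, fun h => absurd hkj h⟩
    obtain ⟨n, hn⟩ := arch _ (h.hc k) _ (pow_ne_zero 2 (h.hη i))
    obtain ⟨r, hr⟩ := h.s2 ι _ hI' (fun j => Ideal.mem_span_singleton.2
      (pow_dvd_pow_of_dvd (hi j (mem_univ j)) 2)) k j hkj n.succ_pos
      (Ideal.mem_span_singleton.2 (hn.trans (pow_dvd_pow _ n.le_succ)))
    exact ⟨r, fun _ => hr⟩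
  choose r hr using h2
  choose β ε hε hβ hβ' using h.bb
  obtain ⟨H, w, hH, hw, hrw, hS⟩ := res h.res_x h.hN h.gp r (fun k j hkj => (hr k j hkj).1)
    (fun k j hkj => by
      have := (residue_eq_zero_iff _).2 (hI' (hr k j hkj).2)
      rw [map_sub, sub_eq_zero, map_mul, map_mul, map_sub, hι, h.res_a, map_eval_Nj] at this
      rw [eval_map_apply, this])
    (fun k => by
      rw [← h.res_a, eval_map_apply, hβ, map_mul, map_sub, h.res_a, sub_self, zero_mul])
    (fun k => natDegree_map_le.trans (h.dQ k))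
  choose ν hν using fun j => (unit_Nj h.hx j).exists_right_inv
  have hW : 0 < ∑ j, w j := sum_pos (fun j _ => hw j) univ_nonempty
  have hne : ∀ k, ε k - H k * ∑ j, w j ≠ 0 := fun k => by
    have h1 := (hS k).1
    have h2 := mul_pos (hH k) hW
    rcases hε k with h3 | h3 <;> rw [h3] <;> linarith
  have hκ : ∀ k, ∃ κ γ : O, γ * κ = 1 ∧
      residue O γ = (H k * w k / (ε k - H k * ∑ j, w j) : ℚ) ∧
      ι (H k)⁻¹ * (Q k).eval (x k) * (ι (w k)⁻¹ * ν k) = a k - x k + (a k - x k) * κ := by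
    intro k
    obtain ⟨t, ht⟩ := binomExpansion (Q k) (x k) (a k - x k)
    rw [add_sub_cancel, hβ] at ht
    obtain ⟨κ, hκ⟩ : ∃ κ, κ = ι (H k)⁻¹ * (β k - (derivative (Q k)).eval (x k) - t * (a k - x k))
      * (ι (w k)⁻¹ * ν k) - 1 := ⟨_, rfl⟩
    have h1 := (hS k).2
    rw [derivative_map, eval_map_apply, ← map_eval_Nj] at h1
    have h3 := congrArg (residue O) (hν k)
    rw [map_mul, map_one] at h3
    have h4 : residue O κ = ((ε k - H k * ∑ j, w j) / (H k * w k) : ℚ) := by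
      have h5 : (ε k - H k * ∑ j, w j) / (H k * w k) =
          (H k)⁻¹ * (ε k - H k * (∑ j, w j - w k)) * (w k)⁻¹ - 1 := by
        have := (hH k).ne'
        have := (hw k).ne'
        field_simp; ring
      rw [hκ, h5]
      simp only [map_sub, map_mul, map_one, hι, hβ', h1, h.res_a, Rat.cast_sub, Rat.cast_mul,
        Rat.cast_one]
      linear_combination (((H k)⁻¹ : ℚ) : ResidueField O) * (((w k)⁻¹ : ℚ) : ResidueField O) *
        ((ε k : ResidueField O) - (H k : ResidueField O) *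
          (((∑ j, w j : ℚ) : ResidueField O) - (w k : ResidueField O))) * h3
    have h6 : residue O κ ≠ 0 := by
      rw [h4, Rat.cast_ne_zero]
      exact div_ne_zero (hne k) (mul_pos (hH k) (hw k)).ne'
    obtain ⟨γ, hγ⟩ := ((residue_ne_zero_iff_isUnit _).1 h6).exists_left_inv
    refine ⟨κ, γ, hγ, ?_, by rw [hκ]; linear_combination -(ι (H k)⁻¹ * (ι (w k)⁻¹ * ν k)) * ht⟩
    have h7 := congrArg (residue O) hγ
    rw [map_mul, map_one] at h7
    rw [eq_inv_of_mul_eq_one_left h7, h4, ← Rat.cast_inv, inv_div]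
  choose κ γ hγ hγ' hκ using hκ
  have hfin := final (Ideal.span {η i ^ 2}) x (fun k => a k - x k) κ γ
    (fun k j => ι (H k)⁻¹ * (Q k).eval (x j) * (ι (w j)⁻¹ * ν j)) i h.hd
    (fun h0 => h.hη i (by rw [e, h0, zero_mul])) h.hx hγ hI (fun k j hkj => by
      have h1 := Ideal.mul_mem_left _ (ι (H k)⁻¹ * (ι (w j)⁻¹ * ν j)) (hr k j hkj).2
      have h2 : ι (H k)⁻¹ * ι (w j)⁻¹ * ι (r k j) = 1 := by
        rw [← map_mul, ← map_mul, hrw k j hkj, ← map_one ι]
        have := (hH k).ne'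
        have := (hw j).ne'
        exact congrArg ι (by field_simp)
      exact (congrArg (· ∈ Ideal.span {η i ^ 2}) (by
        linear_combination -((a k - x j) * (Nj x j).eval (x j) * ν j) * h2
          - (a k - x j) * hν j)).mp h1) hκ (fun k l p u v z => by
      have h1 := h.rk k l p u v z
      simp only [det3] at h1 ⊢
      linear_combination (ι (H k)⁻¹ * ι (H l)⁻¹ * ι (H p)⁻¹ * (ι (w u)⁻¹ * ν u) *
        (ι (w v)⁻¹ * ν v) * (ι (w z)⁻¹ * ν z)) * h1)
  have h8 := (residue_eq_zero_iff _).2 hfin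
  simp only [map_add, hγ', map_ofNat] at h8
  have h9 : H 0 * w 0 / (ε 0 - H 0 * ∑ j, w j) + H 1 * w 1 / (ε 1 - H 1 * ∑ j, w j)
      + H 2 * w 2 / (ε 2 - H 2 * ∑ j, w j) + H 3 * w 3 / (ε 3 - H 3 * ∑ j, w j) + 2 = 0 := by
    exact_mod_cast h8
  have g := fun k => term_gt (hH k) (hw k) hW (hS k).1 (hε k)
  have g1 : w 0 / (∑ j, w j) + w 1 / (∑ j, w j) + w 2 / (∑ j, w j) + w 3 / (∑ j, w j) = 1 := by
    rw [← add_div, ← add_div, ← add_div, ← Fin.sum_univ_four, div_self hW.ne']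
  linarith [g 0, g 1, g 2, g 3]

end

end Pool.Agent.MP_8d06cc_nt.ST
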