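import Mathlib

/-! The last step of the star case: minors of a perturbed matrix of rank two. -/

namespace Pool.Agent.MP_8d06cc_nt.ST

open IsLocalRing

/-- a minor of size three -/
def det3 {R : Type} [CommRing R] (U : Fin 4 → Fin 4 → R) (k l p i j q : Fin 4) : R :=
  U k i * (U l j * U p q - U l q * U p j) - U k j * (U l i * U p q - U l q * U p i)
    + U k q * (U l i * U p j - U l j * U p i)

theorem two_more : ∀ k l : Fin 4, k ≠ l → ∃ p q : Fin 4, k ≠ p ∧ k ≠ q ∧ l ≠ p ∧ l ≠ q ∧ p ≠ q ∧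
    ∀ j, j = k ∨ j = l ∨ j = p ∨ j = q := by decide

variable {O : Type} [CommRing O]

theorem minor_mem (I : Ideal O) (a x d : Fin 4 → O) (U : Fin 4 → Fin 4 → O)
    (off : ∀ k j, k ≠ j → U k j - (a k - x j) ∈ I) (dg : ∀ k, U k k = a k - x k + d k)
    {k l p q : Fin 4} (h1 : k ≠ l) (h2 : k ≠ p) (h3 : k ≠ q) (h4 : l ≠ p) (h5 : l ≠ q) (h6 : p ≠ q)
    (h : det3 U k l p k l q = 0) :
    d k * ((a l - a p) * (x l - x q)) + d l * ((a k - a p) * (x k - x q))
      + d k * d l * (a p - x q) ∈ I := by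
  have e : ∀ k j, k ≠ j → Ideal.Quotient.mk I (U k j) =
      Ideal.Quotient.mk I (a k) - Ideal.Quotient.mk I (x j) := fun k j hkj => by
    rw [← map_sub]; exact Ideal.Quotient.eq.2 (off k j hkj)
  have h0 := congrArg (Ideal.Quotient.mk I) h
  simp only [det3, map_add, map_sub, map_mul, map_zero, dg, e k l h1, e l k h1.symm, e k q h3,
    e l q h5, e p k h2.symm, e p l h4.symm, e p q h6] at h0
  rw [← Ideal.Quotient.eq_zero_iff_mem]
  simp only [map_add, map_sub, map_mul]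
  linear_combination h0

theorem unit_add [IsLocalRing O] {u m : O} (hu : IsUnit u) (hm : m ∈ maximalIdeal O) :
    IsUnit (u + m) := by
  by_contra h
  have h1 : u + m ∈ maximalIdeal O := (mem_maximalIdeal _).2 h
  exact (mem_maximalIdeal _).1 (by simpa using sub_mem h1 hm) hu

theorem final [IsDomain O] [IsLocalRing O] (I : Ideal O) (x δ κ γ : Fin 4 → O)
    (U : Fin 4 → Fin 4 → O) (i : Fin 4) (hδ : ∀ k, δ k ∈ maximalIdeal O) (hi : δ i ≠ 0)
    (hx : ∀ k l, k ≠ l → IsUnit (x k - x l)) (hγ : ∀ k, γ k * κ k = 1)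
    (hI : ∀ z ∈ I, ∃ s ∈ maximalIdeal O, z = δ i ^ 2 * s)
    (off : ∀ k j, k ≠ j → U k j - (x k + δ k - x j) ∈ I) (dg : ∀ k, U k k = δ k + δ k * κ k)
    (hm : ∀ k l p i j q, det3 U k l p i j q = 0) :
    γ 0 + γ 1 + γ 2 + γ 3 + 2 ∈ maximalIdeal O := by
  obtain ⟨a, ha⟩ : ∃ a : Fin 4 → O, ∀ k, a k = x k + δ k := ⟨_, fun _ => rfl⟩
  have hκ : ∀ k, IsUnit (κ k) := fun k => IsUnit.of_mul_eq_one_right _ (hγ k)
  have hau : ∀ k l, k ≠ l → IsUnit (a k - a l) := fun k l hkl => by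
    have := unit_add (hx k l hkl) (sub_mem (hδ k) (hδ l))
    rwa [show x k - x l + (δ k - δ l) = a k - a l by rw [ha, ha]; ring] at this
  have rel : ∀ k l p q, k ≠ l → k ≠ p → k ≠ q → l ≠ p → l ≠ q → p ≠ q → ∃ s ∈ maximalIdeal O,
      δ k * κ k * ((a l - a p) * (x l - x q)) + δ l * κ l * ((a k - a p) * (x k - x q))
        + δ k * κ k * (δ l * κ l) * (a p - x q) = δ i ^ 2 * s := fun k l p q h1 h2 h3 h4 h5 h6 =>
    hI _ (minor_mem I a x (fun k => δ k * κ k) U (fun k j h => by rw [ha]; exact off k j h)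
      (fun k => by rw [ha, dg]; ring) h1 h2 h3 h4 h5 h6 (hm _ _ _ _ _ _))
  have hh : ∀ k, ∃ h h' : O, h * h' = 1 ∧ δ k = δ i * h := fun k => by
    by_cases hk : k = i
    · exact ⟨1, 1, one_mul _, by rw [hk, mul_one]⟩
    obtain ⟨p, q, h2, h3, h4, h5, h6, -⟩ := two_more k i hk
    obtain ⟨s, hs, e⟩ := rel k i p q hk h2 h3 h4 h5 h6
    have u1 : IsUnit (κ k * ((a i - a p) * (x i - x q) + δ i * (κ i * (a p - x q)))) :=
      (hκ k).mul (unit_add ((hau _ _ h4).mul (hx _ _ h5)) (Ideal.mul_mem_right _ _ (hδ i)))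
    have u2 : IsUnit (-(κ i * ((a k - a p) * (x k - x q))) + δ i * s) :=
      unit_add ((hκ i).mul ((hau _ _ h2).mul (hx _ _ h3))).neg (Ideal.mul_mem_right _ _ (hδ i))
    obtain ⟨w1, hw1⟩ := u1.exists_right_inv
    obtain ⟨w, hw⟩ := (u2.mul (IsUnit.of_mul_eq_one_right _ hw1)).exists_right_inv
    exact ⟨_, w, hw, by linear_combination w1 * e - δ k * hw1⟩
  choose h h' hh' hd using hh
  obtain ⟨D, hD⟩ : ∃ D, D = δ i := ⟨_, rfl⟩
  rw [← hD] at hi hd rel
  obtain ⟨J, hJ⟩ : ∃ J : Ideal O, J = Ideal.span {D} * maximalIdeal O := ⟨_, rfl⟩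
  have rel' : ∀ k l p q, k ≠ l → k ≠ p → k ≠ q → l ≠ p → l ≠ q → p ≠ q →
      γ l * h' l * ((a l - a p) * (x l - x q)) + γ k * h' k * ((a k - a p) * (x k - x q))
        + D * (a p - x q) ∈ J := fun k l p q h1 h2 h3 h4 h5 h6 => by
    obtain ⟨s, hs, e⟩ := rel k l p q h1 h2 h3 h4 h5 h6
    rw [hJ, Ideal.mem_span_singleton_mul]
    refine ⟨s * (γ k * h' k * (γ l * h' l)), Ideal.mul_mem_right _ _ hs, mul_left_cancel₀ hi ?_⟩
    have ek : δ k * κ k * (γ k * h' k) = D := by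
      rw [hd k]; linear_combination D * h k * h' k * hγ k + D * hh' k
    have el : δ l * κ l * (γ l * h' l) = D := by
      rw [hd l]; linear_combination D * h l * h' l * hγ l + D * hh' l
    linear_combination -(γ k * h' k * (γ l * h' l)) * e
      + (γ l * h' l * ((a l - a p) * (x l - x q)) + δ l * κ l * (γ l * h' l) * (a p - x q)) * ek
      + (γ k * h' k * ((a k - a p) * (x k - x q)) + D * (a p - x q)) * el
  have g02 := rel' 1 3 0 2 (by decide) (by decide) (by decide) (by decide) (by decide) (by decide)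
  have g03 := rel' 1 2 0 3 (by decide) (by decide) (by decide) (by decide) (by decide) (by decide)
  have g12 := rel' 0 3 1 2 (by decide) (by decide) (by decide) (by decide) (by decide) (by decide)
  have g13 := rel' 0 2 1 3 (by decide) (by decide) (by decide) (by decide) (by decide) (by decide)
  obtain ⟨g, hg⟩ : ∃ g : Fin 4 → O, ∀ k, γ k * h' k = g k := ⟨_, fun _ => rfl⟩
  simp only [hg] at g02 g03 g12 g13
  have u1 := hau 0 1 (by decide)
  have u2 := hx 2 3 (by decide)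
  have hT : g 0 + g 1 + g 2 + g 3 ∈ J := by
    rw [← Ideal.unit_mul_mem_iff_mem _ (u1.mul u2)]
    exact (congrArg (· ∈ J) (by ring)).mp (add_mem (sub_mem (sub_mem g02 g12) g03) g13)
  have hS : g 0 * x 0 + g 1 * x 1 + g 2 * x 2 + g 3 * x 3 - D ∈ J := by
    rw [← Ideal.unit_mul_mem_iff_mem _ u1]
    exact (congrArg (· ∈ J) (by ring)).mp
      (add_mem (sub_mem g12 g02) (J.mul_mem_left ((a 0 - a 1) * x 2) hT))
  have hR : g 0 * a 0 + g 1 * a 1 + g 2 * a 2 + g 3 * a 3 + D ∈ J := by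
    rw [← Ideal.unit_mul_mem_iff_mem _ u2]
    exact (congrArg (· ∈ J) (by ring)).mp
      (add_mem (sub_mem g03 g02) (J.mul_mem_left ((x 2 - x 3) * a 0) hT))
  have h1 := sub_mem hR hS
  rw [hJ, Ideal.mem_span_singleton_mul] at h1
  obtain ⟨s, hs, e⟩ := h1
  have e' : s = γ 0 + γ 1 + γ 2 + γ 3 + 2 := by
    apply mul_left_cancel₀ hi
    simp only [ha, hd, ← hg] at e
    linear_combination e + D * γ 0 * hh' 0 + D * γ 1 * hh' 1 + D * γ 2 * hh' 2 + D * γ 3 * hh' 3
  exact e' ▸ hs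

/-- the cube relations give a product form -/
theorem factor (r : Fin 4 → Fin 4 → ℚ) (hr : ∀ k j, k ≠ j → 0 < r k j)
    (h : ∀ k l i j, k ≠ l → k ≠ i → k ≠ j → l ≠ i → l ≠ j → i ≠ j →
      r k i * r l j = r k j * r l i) :
    ∃ h w : Fin 4 → ℚ, (∀ k, 0 < h k) ∧ (∀ k, 0 < w k) ∧ ∀ k j, k ≠ j → r k j = h k * w j := by
  have p1 := hr 0 1 (by decide)
  have p2 := hr 0 2 (by decide)
  have p3 := hr 0 3 (by decide)
  have q0 := hr 1 0 (by decide)
  have q2 := hr 1 2 (by decide)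
  have q3 := hr 1 3 (by decide)
  have s1 := hr 2 1 (by decide)
  have t1 := hr 3 1 (by decide)
  have e1 := h 0 1 2 3 (by decide) (by decide) (by decide) (by decide) (by decide) (by decide)
  have e2 := h 0 2 1 3 (by decide) (by decide) (by decide) (by decide) (by decide) (by decide)
  have e3 := h 0 3 1 2 (by decide) (by decide) (by decide) (by decide) (by decide) (by decide)
  have e4 := h 1 2 0 3 (by decide) (by decide) (by decide) (by decide) (by decide) (by decide)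
  have e5 := h 1 3 0 2 (by decide) (by decide) (by decide) (by decide) (by decide) (by decide)
  have f1 : r 1 3 = r 1 2 / r 0 2 * r 0 3 := by field_simp; linear_combination e1
  have f2 : r 2 3 = r 2 1 / r 0 1 * r 0 3 := by field_simp; linear_combination e2
  have f3 : r 3 2 = r 3 1 / r 0 1 * r 0 2 := by field_simp; linear_combination e3
  have f4 : r 2 0 = r 2 1 / r 0 1 * (r 1 0 * r 0 2 / r 1 2) := by
    apply mul_left_cancel₀ q3.ne'
    rw [← e4, f1, f2]; field_simp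
  have f5 : r 3 0 = r 3 1 / r 0 1 * (r 1 0 * r 0 2 / r 1 2) := by
    apply mul_left_cancel₀ q2.ne'
    rw [← e5, f3]; field_simp
  refine ⟨![1, r 1 2 / r 0 2, r 2 1 / r 0 1, r 3 1 / r 0 1],
    ![r 1 0 * r 0 2 / r 1 2, r 0 1, r 0 2, r 0 3], fun k => ?_, fun k => ?_, fun k j hkj => ?_⟩
  · fin_cases k <;> simp <;> positivity
  · fin_cases k <;> simp <;> positivity
  · fin_cases k <;> fin_cases j <;> simp at hkj ⊢ <;>
      first | assumption | field_simp

theorem term_gt {h w W ε : ℚ} (hh : 0 < h) (hw : 0 < w) (hW : 0 < W) (h1 : h * W < 1)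
    (hε : ε = 1 ∨ ε = -1) : -(w / W) < h * w / (ε - h * W) := by
  have h2 : 0 < h * W := mul_pos hh hW
  rcases hε with rfl | rfl
  · have : 0 < h * w / (1 - h * W) := div_pos (mul_pos hh hw) (by linarith)
    have : 0 < w / W := div_pos hw hW
    linarith
  · rw [show (-1 - h * W) = -(1 + h * W) by ring, div_neg, neg_lt_neg_iff,
      div_lt_div_iff₀ (by linarith) hW]
    nlinarith

theorem ratio (r r' : ℚ) (hr : 0 < r) (hr' : 0 < r') :
    ∃ α β : ℕ, 0 < α ∧ 0 < β ∧ α * r = β * r' := by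
  have h := div_pos hr' hr
  have h1 : 0 < (r' / r).num := Rat.num_pos.2 h
  refine ⟨(r' / r).num.toNat, (r' / r).den, by omega, (r' / r).den_pos, ?_⟩
  have h2 : (((r' / r).num.toNat : ℕ) : ℚ) = (r' / r).num := by
    rw [← Int.cast_natCast, Int.toNat_of_nonneg h1.le]
  rw [h2, ← Rat.mul_den_eq_num]
  field_simp

end Pool.Agent.MP_8d06cc_nt.ST
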