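import Pool.Agent.MP_8d06cc_nt.ST.Spec

/-! Functions `A + B y` with their norm and logarithmic derivative; order lemmas. -/

namespace Pool.Agent.MP_8d06cc_nt.ST

open Polynomial Pool.Agent.MP_8d06cc_nt.DA

/-- `A + B y` has norm `NN` and logarithmic derivative `(l + T / y) / (2 P)` -/
structure Fn {R : Type} [CommRing R] (f P T l NN A B : R[X]) : Prop where
  nn : A ^ 2 - f * B ^ 2 = NN
  o1 : B * T = 2 * derivative A * P - A * l
  o2 : A * T = (2 * f * derivative B + derivative f * B) * P - f * B * l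

section Ring

variable {R : Type} [CommRing R] {f P T l NN A B T' l' NN' A' B' : R[X]}

theorem Fn.mul (h : Fn f P T l NN A B) (h' : Fn f P T' l' NN' A' B') :
    Fn f P (T + T') (l + l') (NN * NN') (A * A' + f * B * B') (A * B' + A' * B) := by
  refine ⟨by rw [← h.nn, ← h'.nn]; ring, ?_, ?_⟩
  · simp only [derivative_add, derivative_mul]
    linear_combination A' * h.o1 + A * h'.o1 + B' * h.o2 + B * h'.o2
  · simp only [derivative_add, derivative_mul]
    linear_combination f * B' * h.o1 + f * B * h'.o1 + A' * h.o2 + A * h'.o2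

theorem Fn.conj (h : Fn f P T l NN A B) : Fn f P (-T) l NN A (-B) := by
  refine ⟨by rw [← h.nn]; ring, by linear_combination h.o1, ?_⟩
  rw [derivative_neg]
  linear_combination -h.o2

theorem Fn.wid (h : Fn f P T l NN A B) (S : R[X]) : Fn f (P * S) (T * S) (l * S) NN A B :=
  ⟨h.nn, by linear_combination S * h.o1, by linear_combination S * h.o2⟩

theorem Fn.cast (h : Fn f P T l NN A B) {P' : R[X]} (e0 : P = P') (e1 : T = T') (e2 : l = l')
    (e3 : NN = NN') : Fn f P' T' l' NN' A B := by
  subst e0 e1 e2 e3; exact h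

theorem Fn.map {S : Type} [CommRing S] (h : Fn f P T l NN A B) (g : R →+* S) :
    Fn (f.map g) (P.map g) (T.map g) (l.map g) (NN.map g) (A.map g) (B.map g) := by
  have h1 := congrArg (Polynomial.map g) h.nn
  have h2 := congrArg (Polynomial.map g) h.o1
  have h3 := congrArg (Polynomial.map g) h.o2
  simp only [Polynomial.map_sub, Polynomial.map_mul, Polynomial.map_pow, Polynomial.map_add,
    Polynomial.map_ofNat, ← derivative_map] at h1 h2 h3
  exact ⟨h1, h2, h3⟩

theorem Fn.of_map {S : Type} [CommRing S] (g : R →+* S) (hg : Function.Injective g)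
    (h : Fn (f.map g) (P.map g) (T.map g) (l.map g) (NN.map g) (A.map g) (B.map g)) :
    Fn f P T l NN A B := by
  refine ⟨map_injective g hg ?_, map_injective g hg ?_, map_injective g hg ?_⟩ <;>
    simp only [Polynomial.map_sub, Polynomial.map_mul, Polynomial.map_pow, Polynomial.map_add,
      Polynomial.map_ofNat, ← derivative_map]
  exacts [h.nn, h.o1, h.o2]

theorem Fn.smul (h : Fn f P T l NN A B) (s : R) :
    Fn f P T l (C (s ^ 2) * NN) (C s * A) (C s * B) := by
  refine ⟨by rw [← h.nn, C_pow]; ring, ?_, ?_⟩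
  · rw [derivative_C_mul]; linear_combination C s * h.o1
  · rw [derivative_C_mul]; linear_combination C s * h.o2

theorem Fn.pow (h : Fn f P T l NN A B) (n : ℕ) : ∃ A' B', Fn f P (n * T) (n * l) (NN ^ n) A' B' ∧
    ∀ (S : Type) [CommRing S] (g : R →+* S) (y : S[X]), f.map g = y ^ 2 →
      A'.map g + B'.map g * y = (A.map g + B.map g * y) ^ n := by
  induction n with
  | zero => exact ⟨1, 0, ⟨by simp, by simp, by simp⟩, by simp⟩
  | succ n ih =>
    obtain ⟨A', B', h1, h2⟩ := ih
    refine ⟨_, _, (h1.mul h).cast rfl (by push_cast; ring) (by push_cast; ring) (pow_succ _ _).symm,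
      fun S _ g y hy => ?_⟩
    rw [pow_succ, ← h2 S g y hy]
    simp only [Polynomial.map_add, Polynomial.map_mul, hy]
    ring

/-- a common constant factor can be removed -/
theorem Fn.cancel [IsDomain R] {s c : R} {M : R[X]} (hs : s ≠ 0) (hM : M.Monic)
    (h : Fn f P T l (C c * M) (C s * A) (C s * B)) :
    ∃ c', c = s ^ 2 * c' ∧ Fn f P T l (C c' * M) A B := by
  have hs' : (C s : R[X]) ≠ 0 := C_ne_zero.2 hs
  have h1 : C (s ^ 2) * (A ^ 2 - f * B ^ 2) = C c * M := by rw [← h.nn, C_pow]; ring
  have h2 := congrArg (fun p => p.coeff M.natDegree) h1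
  simp only [coeff_C_mul, hM.coeff_natDegree, mul_one] at h2
  refine ⟨_, h2.symm, ?_, ?_, ?_⟩
  · apply mul_left_cancel₀ (C_ne_zero.2 (pow_ne_zero 2 hs))
    rw [h1, ← mul_assoc, ← C_mul, h2]
  · apply mul_left_cancel₀ hs'
    have := h.o1
    rw [derivative_C_mul] at this
    linear_combination this
  · apply mul_left_cancel₀ hs'
    have := h.o2
    rw [derivative_C_mul] at this
    linear_combination this

/-- a Pell datum gives such a function -/
theorem fn_of_ok [IsDomain R] {N : ℕ} {D : PD R} (h : D.OK f N) :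
    Fn f (X - C D.a) (2 * N * D.Q) (2 * N) (C D.c * (X - C D.a) ^ (2 * N)) D.A D.B := by
  have hN := h.pos
  obtain ⟨M, hM⟩ : ∃ M, 2 * N = M + 1 := ⟨2 * N - 1, by omega⟩
  have hM' : (M : R[X]) + 1 = 2 * N := by exact_mod_cast congrArg (Nat.cast : ℕ → R[X]) hM.symm
  have h0 := h.eqn
  have h1 := congrArg derivative h.eqn
  have h2 := h.hQ
  rw [hM] at h0 h1
  rw [hM, Nat.add_sub_cancel, WW] at h2
  simp only [derivative_sub, derivative_mul, derivative_pow_succ, derivative_C, derivative_X, sq,
    map_add, map_natCast, map_one, hM', sub_zero, mul_one, zero_mul, zero_add] at h1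
  simp only [map_mul, map_natCast, map_ofNat] at h2
  have hz : C D.c * (X - C D.a) ^ M ≠ 0 :=
    mul_ne_zero (C_ne_zero.2 h.hc) (pow_ne_zero _ (X_sub_C_ne_zero _))
  refine ⟨h.eqn, mul_left_cancel₀ hz ?_, mul_left_cancel₀ hz ?_⟩
  · linear_combination -D.B * h2 + 2 * derivative D.A * h0 - D.A * h1
  · linear_combination -D.A * h2 + (2 * f * derivative D.B + derivative f * D.B) * h0
      - f * D.B * h1

end Ring

/-- the residue of a logarithmic derivative is the order -/
theorem ord {k : Type} [Field k] {p S₁ S₂ : k[X]} {x : k} (hp : p ≠ 0)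
    (h : p * S₁ = (X - C x) * S₂ * derivative p) :
    ∃ μ : ℕ, S₁.eval x = μ * S₂.eval x ∧ (p.eval x = 0 → 0 < μ) := by
  obtain ⟨q, hq, hn⟩ := exists_eq_pow_rootMultiplicity_mul_and_not_dvd p hp x
  refine ⟨p.rootMultiplicity x, ?_, fun h0 => (rootMultiplicity_pos hp).2 h0⟩
  generalize p.rootMultiplicity x = μ at hq
  have hq0 : q.eval x ≠ 0 := fun h0 => hn (dvd_iff_isRoot.2 h0)
  have h1 : (X - C x) * derivative p =
      (X - C x) ^ μ * ((μ : k[X]) * q + (X - C x) * derivative q) := by
    rw [hq]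
    rcases μ with _ | μ
    · simp
    · simp only [derivative_mul, derivative_pow_succ, derivative_sub, derivative_X, derivative_C,
        map_add, map_natCast, map_one]
      push_cast; ring
  have h2 : q * S₁ = S₂ * ((μ : k[X]) * q + (X - C x) * derivative q) := by
    apply mul_left_cancel₀ (pow_ne_zero μ (X_sub_C_ne_zero x))
    rw [← mul_assoc, ← hq, h]
    linear_combination S₂ * h1
  have h3 := congrArg (eval x) h2
  simp only [eval_mul, eval_add, eval_sub, eval_X, eval_C, sub_self, zero_mul, add_zero,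
    eval_natCast] at h3
  apply mul_left_cancel₀ hq0
  linear_combination h3

/-- the same over a local ring -/
theorem ordL {R k : Type} [CommRing R] [Field k] [CharZero k] (ρ : R →+* k)
    (hρ : ∀ z, ρ z ≠ 0 → IsUnit z) {S₂ : R[X]} {x : R} (hS : ρ (S₂.eval x) ≠ 0) (n : ℕ) :
    ∀ p S₁ : R[X], p.map ρ ≠ 0 → (p.map ρ).natDegree = n →
      p * S₁ = (X - C x) * S₂ * derivative p → ∃ μ : ℕ, S₁.eval x = μ * S₂.eval x := by
  induction n using Nat.strong_induction_on with
  | _ n ih =>
    intro p S₁ hp hn h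
    have h0 := congrArg (eval x) h
    simp only [eval_mul, eval_sub, eval_X, eval_C, sub_self, zero_mul] at h0
    by_cases hu : ρ (p.eval x) = 0
    · have h1 := congrArg (Polynomial.map ρ) h
      simp only [Polynomial.map_mul, Polynomial.map_sub, map_X, map_C, ← derivative_map] at h1
      obtain ⟨μ, h2, h3⟩ := ord hp h1
      simp only [eval_map_apply] at h2 h3
      have hμ : (μ : k) ≠ 0 := Nat.cast_ne_zero.2 (h3 hu).ne'
      have h4 : IsUnit (S₁.eval x) := hρ _ (h2 ▸ mul_ne_zero hμ hS)
      obtain ⟨q, rfl⟩ := dvd_iff_isRoot.2 (show p.IsRoot x from h4.mul_left_eq_zero.1 h0)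
      simp only [Polynomial.map_mul, Polynomial.map_sub, map_X, map_C] at hp hn
      have hq := right_ne_zero_of_mul hp
      rw [natDegree_mul (X_sub_C_ne_zero _) hq, natDegree_X_sub_C] at hn
      have h5 : q * (S₁ - S₂) = (X - C x) * S₂ * derivative q := by
        apply (monic_X_sub_C x).isRegular.left
        simp only [derivative_mul, derivative_sub, derivative_X, derivative_C] at h
        linear_combination h
      obtain ⟨ν, hν⟩ := ih _ (by omega) q _ hq rfl h5
      rw [eval_sub] at hν
      exact ⟨ν + 1, by push_cast; linear_combination hν⟩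
    · exact ⟨0, by simpa using (hρ _ hu).mul_right_eq_zero.1 h0⟩

/-- a primitive polynomial over a local ring is not a zero divisor -/
theorem prim_cancel {R k : Type} [CommRing R] [Field k] (ρ : R →+* k)
    (hρ : ∀ z, ρ z ≠ 0 → IsUnit z) {p q : R[X]} (hp : p.map ρ ≠ 0) (h : q * p = 0) : q = 0 := by
  obtain ⟨i, hi⟩ : ∃ i, ρ (p.coeff i) ≠ 0 := by
    by_contra hc
    push Not at hc
    exact hp (Polynomial.ext fun i => by rw [coeff_map, hc i, coeff_zero])
  exact (mul_right_mem_nonZeroDivisors_eq_zero_iff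
    (mem_nonzeroDivisors_of_coeff_mem i (hρ _ hi).mem_nonZeroDivisors)).1 h

end Pool.Agent.MP_8d06cc_nt.ST
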