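import Pool.Agent.MP_8d06cc_nt.ST.Fn
import Pool.Agent.MP_8d06cc_nt.ST.Fin

/-! The star case over the residue field. -/

namespace Pool.Agent.MP_8d06cc_nt.ST

open Polynomial Finset

noncomputable section

/-- the quartic with roots `x` -/
def N4 {R : Type} [CommRing R] (x : Fin 4 → R) : R[X] := ∏ j, (X - C (x j))

/-- the cubic cofactor -/
def Nj {R : Type} [CommRing R] (x : Fin 4 → R) (j : Fin 4) : R[X] :=
  ∏ i ∈ univ.erase j, (X - C (x i))

section Ring

variable {R S : Type} [CommRing R] [CommRing S]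

theorem mul_Nj (x : Fin 4 → R) (j : Fin 4) : (X - C (x j)) * Nj x j = N4 x :=
  mul_prod_erase univ (fun i => X - C (x i)) (mem_univ j)

theorem map_N4 (g : R →+* S) (x : Fin 4 → R) : (N4 x).map g = N4 fun j => g (x j) := by
  simp [N4, Polynomial.map_prod]

theorem map_Nj (g : R →+* S) (x : Fin 4 → R) (j : Fin 4) :
    (Nj x j).map g = Nj (fun j => g (x j)) j := by
  simp [Nj, Polynomial.map_prod]

theorem map_eval_Nj (g : R →+* S) (x : Fin 4 → R) (j : Fin 4) :
    g ((Nj x j).eval (x j)) = (Nj (fun j => g (x j)) j).eval (g (x j)) := by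
  rw [← map_Nj, eval_map_apply]

theorem N4_ne [Nontrivial R] (x : Fin 4 → R) : N4 x ≠ 0 :=
  (monic_prod_X_sub_C x univ).ne_zero

theorem eval_N4 (x : Fin 4 → R) (j : Fin 4) : (N4 x).eval (x j) = 0 := by
  rw [← mul_Nj x j]; simp

theorem eval_Nj (x : Fin 4 → R) (j : Fin 4) (z : R) :
    (Nj x j).eval z = ∏ i ∈ univ.erase j, (z - x i) := by
  simp [Nj, eval_prod]

theorem eval_Nj_ne (x : Fin 4 → R) {i j : Fin 4} (h : i ≠ j) : (Nj x j).eval (x i) = 0 := by
  rw [eval_Nj]
  exact prod_eq_zero (mem_erase.2 ⟨h, mem_univ i⟩) (sub_self _)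

theorem unit_Nj {x : Fin 4 → R} (hx : ∀ k l, k ≠ l → IsUnit (x k - x l)) (j : Fin 4) :
    IsUnit ((Nj x j).eval (x j)) := by
  rw [eval_Nj]
  exact IsUnit.prod_iff.2 fun i hi => hx j i (mem_erase.1 hi).1.symm

theorem deg_Nj (x : Fin 4 → R) (j : Fin 4) : (Nj x j).natDegree ≤ 3 := by
  refine (natDegree_prod_le _ _).trans ((sum_le_card_nsmul _ _ 1 fun i _ =>
    natDegree_X_sub_C_le _).trans ?_)
  simp

theorem der_Nj (x : Fin 4 → R) {j k : Fin 4} (h : k ≠ j) :
    (x k - x j) * (derivative (Nj x j)).eval (x k) = (Nj x k).eval (x k) := by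
  have h1 := congrArg (fun p => (derivative p).eval (x k)) ((mul_Nj x j).trans (mul_Nj x k).symm)
  simpa [eval_Nj_ne x h] using h1

end Ring

variable {k : Type} [Field k] [CharZero k] {x : Fin 4 → k}

theorem fg (hx : ∀ i j, i ≠ j → IsUnit (x i - x j)) {a b : Fin 4} (hab : a ≠ b) {A B T l : k[X]}
    {c : k} {p q : ℕ} (hAB : A ≠ 0 ∨ B ≠ 0) (h : Fn (N4 x ^ 2) ((X - C (x a)) * (X - C (x b))) T l
      (C c * ((X - C (x a)) ^ p * (X - C (x b)) ^ q)) A B) :
    (c = 0 → ∀ j, j ≠ a → j ≠ b → T.eval (x j) ≠ 0) ∧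
    (c ≠ 0 → ∀ j, j ≠ a → j ≠ b → T.eval (x j) = 0) ∧
    (c ≠ 0 → 0 < p → ∀ c', T = C c' * N4 x →
      ∃ μ : ℕ, 0 < μ ∧ l.eval (x a) - c' = μ * (2 * (x a - x b))) := by
  have hn := h.nn
  refine ⟨fun hc j ha hb => ?_, fun hc j ha hb => ?_, fun hc hp c' hT => ?_⟩
  · obtain ⟨ε, hε, hA⟩ : ∃ ε : k, ε ≠ 0 ∧ A = C ε * B * N4 x := by
      have h1 : (A - B * N4 x) * (A + B * N4 x) = 0 := by
        rw [hc, C_0, zero_mul] at hn; linear_combination hn
      rcases mul_eq_zero.1 h1 with h2 | h2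
      · exact ⟨1, one_ne_zero, by rw [C_1]; linear_combination h2⟩
      · exact ⟨-1, by norm_num, by rw [C_neg, C_1]; linear_combination h2⟩
    have hA0 : A ≠ 0 := by
      rcases hAB with h1 | h1
      · exact h1
      · rw [hA]; exact mul_ne_zero (mul_ne_zero (C_ne_zero.2 hε) h1) (N4_ne x)
    obtain ⟨μ, h1, h2⟩ := ord (x := x j) (S₁ := T + C ε * N4 x * l)
      (S₂ := 2 * C ε * Nj x j * ((X - C (x a)) * (X - C (x b)))) hA0 (by
        linear_combination T * hA + C ε * N4 x * h.o1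
          - 2 * C ε * ((X - C (x a)) * (X - C (x b))) * derivative A * mul_Nj x j)
    have hμ : (μ : k) ≠ 0 := Nat.cast_ne_zero.2 (h2 (by rw [hA, eval_mul, eval_N4, mul_zero])).ne'
    simp only [eval_add, eval_mul, eval_N4, mul_zero, zero_mul, add_zero, eval_sub, eval_X, eval_C,
      eval_ofNat] at h1
    rw [h1]
    exact mul_ne_zero hμ (mul_ne_zero (mul_ne_zero (mul_ne_zero two_ne_zero hε)
      (unit_Nj hx j).ne_zero) (mul_ne_zero (hx _ _ ha).ne_zero (hx _ _ hb).ne_zero))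
  · have h1 := congrArg (eval (x j)) hn
    have h2 := congrArg (eval (x j)) h.o2
    simp only [derivative_sq, eval_add, eval_mul, eval_pow, eval_N4, mul_zero, zero_mul, add_zero,
      eval_sub, eval_X, eval_C, zero_pow two_ne_zero, sub_zero] at h1 h2
    refine (mul_eq_zero.1 h2).resolve_left fun h0 => ?_
    rw [h0, zero_pow two_ne_zero] at h1
    exact mul_ne_zero hc (mul_ne_zero (pow_ne_zero _ (hx _ _ ha).ne_zero)
      (pow_ne_zero _ (hx _ _ hb).ne_zero)) h1.symm
  · have hP : A - B * N4 x ≠ 0 := fun h0 => by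
      refine mul_ne_zero (C_ne_zero.2 hc) (mul_ne_zero (pow_ne_zero p (X_sub_C_ne_zero (x a)))
        (pow_ne_zero q (X_sub_C_ne_zero (x b)))) ?_
      linear_combination -hn + (A + B * N4 x) * h0
    have h1 := h.o1
    have h2 := h.o2
    rw [hT] at h1 h2
    rw [derivative_sq, map_ofNat] at h2
    have h3 : A * C c' = 2 * (N4 x * derivative B + derivative (N4 x) * B) *
        ((X - C (x a)) * (X - C (x b))) - N4 x * B * l :=
      mul_left_cancel₀ (N4_ne x) (by linear_combination h2)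
    obtain ⟨μ, h4, h5⟩ := ord (x := x a) (S₁ := l - C c') (S₂ := 2 * (X - C (x b))) hP (by
      rw [derivative_sub, derivative_mul]
      linear_combination h1 - h3)
    have h6 := congrArg (eval (x a)) hn
    simp only [eval_mul, eval_pow, eval_N4, mul_zero, zero_mul, eval_sub, eval_X, eval_C,
      zero_pow two_ne_zero, sub_zero, sub_self, zero_pow hp.ne'] at h6
    refine ⟨μ, h5 ?_, by simpa using h4⟩
    rw [eval_sub, eval_mul, eval_N4, mul_zero, sub_zero]
    exact pow_eq_zero_iff two_ne_zero |>.1 h6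

/-- the quotients of powers of two of the functions have a non-zero reduction -/
def GP {R : Type} [CommRing R] (N : ℕ) (f : R[X]) (x : Fin 4 → R) (Q : Fin 4 → R[X])
    (Φ : R[X] → R[X] → Prop) : Prop :=
  ∀ a b : Fin 4, ∀ α β : ℕ, ∃ A B c, Φ A B ∧ Fn f ((X - C (x a)) * (X - C (x b)))
    (2 * (N : R[X]) * ((α : R[X]) * Q a * (X - C (x b)) - (β : R[X]) * Q b * (X - C (x a))))
    (2 * (N : R[X]) * ((α : R[X]) * (X - C (x b)) + (β : R[X]) * (X - C (x a))))
    (C c * ((X - C (x a)) ^ (2 * N * α) * (X - C (x b)) ^ (2 * N * β))) A B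

theorem res (hx : ∀ i j, i ≠ j → IsUnit (x i - x j)) {N : ℕ} (hN : 0 < N) {Q : Fin 4 → k[X]}
    (hG : GP N (N4 x ^ 2) x Q fun A B => A ≠ 0 ∨ B ≠ 0) (r : Fin 4 → Fin 4 → ℚ)
    (hr : ∀ i j, i ≠ j → 0 < r i j)
    (hQ : ∀ i j, i ≠ j → (Q i).eval (x j) = r i j * ((x i - x j) * (Nj x j).eval (x j)))
    (h0 : ∀ i, (Q i).eval (x i) = 0) (hd : ∀ i, (Q i).natDegree ≤ 3) :
    ∃ h w : Fin 4 → ℚ, (∀ i, 0 < h i) ∧ (∀ i, 0 < w i) ∧ (∀ i j, i ≠ j → r i j = h i * w j) ∧
      ∀ i, h i * ∑ j, w j < 1 ∧ (derivative (Q i)).eval (x i) =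
        (h i * (∑ j, w j - w i) : ℚ) * (Nj x i).eval (x i) := by
  have hN' : (N : k) ≠ 0 := Nat.cast_ne_zero.2 hN.ne'
  have ev : ∀ (a b j : Fin 4) (α β : ℕ), j ≠ a → j ≠ b →
      ((2 * (N : k[X]) * ((α : k[X]) * Q a * (X - C (x b)) -
        (β : k[X]) * Q b * (X - C (x a)))).eval (x j) = 0 ↔ α * r a j = β * r b j) := by
    intro a b j α β ha hb
    have e : (2 * (N : k[X]) * ((α : k[X]) * Q a * (X - C (x b)) -
        (β : k[X]) * Q b * (X - C (x a)))).eval (x j) =
        (2 * N * ((x a - x j) * (x j - x b) * (Nj x j).eval (x j))) *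
          ((α * r a j - β * r b j : ℚ) : k) := by
      simp only [eval_mul, eval_sub, eval_X, eval_C, eval_natCast, eval_ofNat, hQ a j ha.symm,
        hQ b j hb.symm]
      push_cast; ring
    rw [e, mul_eq_zero, Rat.cast_eq_zero, sub_eq_zero, or_iff_right]
    exact mul_ne_zero (mul_ne_zero two_ne_zero hN') (mul_ne_zero (mul_ne_zero
      (hx _ _ ha.symm).ne_zero (hx _ _ hb).ne_zero) (unit_Nj hx j).ne_zero)
  obtain ⟨h, w, hh, hw, hrw⟩ := factor r hr fun a b i j hab h1 h2 h3 h4 _ => by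
    obtain ⟨α, β, hα, -, e⟩ := ratio _ _ (hr a i h1) (hr b i h3)
    obtain ⟨A, B, c, hAB, hF⟩ := hG a b α β
    obtain ⟨f1, f2, -⟩ := fg hx hab hAB hF
    have hc : c ≠ 0 := fun hc => f1 hc i h1.symm h3.symm ((ev a b i α β h1.symm h3.symm).2 e)
    have e' := (ev a b j α β h2.symm h4.symm).1 (f2 hc j h2.symm h4.symm)
    have hα' : (α : ℚ) ≠ 0 := by positivity
    apply mul_left_cancel₀ hα'
    linear_combination r b j * e - r b i * e'
  have hinj : Function.Injective x := fun i j hij => by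
    by_contra hne
    exact (hx i j hne).ne_zero (sub_eq_zero.2 hij)
  have hE : ∀ i, Q i = ∑ j, C ((h i * w j : ℚ) * (x i - x j)) * Nj x j := fun i => by
    refine eq_of_natDegree_lt_card_of_eval_eq _ _ hinj (fun j => ?_) ?_
    · rw [eval_finsetSum, sum_eq_single j (fun l _ hl => by
        rw [eval_mul, eval_Nj_ne x hl.symm, mul_zero]) (by simp), eval_mul, eval_C]
      by_cases hij : i = j
      · subst hij; rw [h0, sub_self, mul_zero, zero_mul]
      · rw [hQ i j hij, hrw i j hij, mul_assoc]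
    · have := natDegree_sum_le_of_forall_le univ
        (fun j => C ((h i * w j : ℚ) * (x i - x j)) * Nj x j) fun j _ =>
          (natDegree_C_mul_le _ _).trans (deg_Nj x j)
      have := hd i
      simp only [Fintype.card_fin]
      omega
  refine ⟨h, w, hh, hw, hrw, fun a => ⟨?_, ?_⟩⟩
  · obtain ⟨b, hab⟩ := exists_ne a
    obtain ⟨i, -, h1, -, h2, -⟩ := two_more a b hab.symm
    obtain ⟨α, β, hα, -, e⟩ := ratio _ _ (hh a) (hh b)
    obtain ⟨A, B, c, hAB, hF⟩ := hG a b α β
    obtain ⟨f1, -, f3⟩ := fg hx hab.symm hAB hF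
    have hc : c ≠ 0 := fun hc => f1 hc i h1.symm h2.symm ((ev a b i α β h1.symm h2.symm).2 (by
      rw [hrw a i h1, hrw b i h2]; linear_combination w i * e))
    have e' : (α : k[X]) * C (h a : k) = β * C (h b : k) := by
      have := congrArg (fun t : ℚ => (C (t : k) : k[X])) e
      simpa using this
    obtain ⟨μ, hμ, h3⟩ := f3 hc (by positivity)
      (2 * N * α * (h a * ∑ j, w j : ℚ) * (x a - x b)) (by
        have m0 := mul_Nj x 0
        have m1 := mul_Nj x 1
        have m2 := mul_Nj x 2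
        have m3 := mul_Nj x 3
        rw [hE a, hE b]
        simp only [Fin.sum_univ_four, Rat.cast_mul, Rat.cast_add, map_mul, map_sub, map_add,
          map_natCast, map_ofNat]
        linear_combination 2 * (N : k[X]) * (X - C (x a)) *
            (C (w 0 : k) * (C (x b) - C (x 0)) * Nj x 0
            + C (w 1 : k) * (C (x b) - C (x 1)) * Nj x 1
            + C (w 2 : k) * (C (x b) - C (x 2)) * Nj x 2
            + C (w 3 : k) * (C (x b) - C (x 3)) * Nj x 3) * e'
          + 2 * (N : k[X]) * α * C (h a : k) * (C (x a) - C (x b)) * (C (w 0 : k) * m0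
            + C (w 1 : k) * m1 + C (w 2 : k) * m2 + C (w 3 : k) * m3))
    simp only [eval_mul, eval_add, eval_sub, eval_X, eval_C, eval_natCast, eval_ofNat] at h3
    have h4 : (((N * α * (1 - h a * ∑ j, w j) : ℚ)) : k) = ((μ : ℚ) : k) := by
      apply mul_right_cancel₀ (mul_ne_zero two_ne_zero (hx _ _ hab.symm).ne_zero)
      push_cast at h3 ⊢
      linear_combination h3
    have h5 := Rat.cast_injective h4
    have h6 : (0 : ℚ) < N * α * (1 - h a * ∑ j, w j) := by rw [h5]; positivity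
    have h7 : (0 : ℚ) < N * α := by positivity
    linarith [(mul_pos_iff_of_pos_left h7).1 h6]
  · have e : ∀ j, (derivative (C ((h a * w j : ℚ) * (x a - x j)) * Nj x j)).eval (x a) =
        ((h a * w j : ℚ) - if j = a then ((h a * w a : ℚ) : k) else 0) * (Nj x a).eval (x a) := by
      intro j
      rw [derivative_C_mul, eval_mul, eval_C]
      split_ifs with hj
      · subst hj; simp
      · rw [mul_assoc, der_Nj x (Ne.symm hj), sub_zero]
    rw [hE a, derivative_sum, eval_finsetSum, sum_congr rfl fun j _ => e j, ← sum_mul,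
      sum_sub_distrib, sum_ite_eq' univ a, if_pos (mem_univ a)]
    push_cast
    rw [← mul_sum]
    ring

end

end Pool.Agent.MP_8d06cc_nt.ST
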