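import Pool.Agent.MP_8d06cc_nt.DA.Defs

/-! Statement of the last case of block R4: four double classes, one marked point in each. -/

namespace Pool.Agent.MP_8d06cc_nt.ST

open Polynomial Pool.Agent.MP_8d06cc_nt.DA

/-- the star configuration is impossible -/
def S_STAR : Prop := ∀ (L Γ : Type) [Field L] [LinearOrderedCommGroupWithZero Γ]
  (v : Valuation L Γ) (f : L[X]) (N : ℕ) (P : Fin 4 → PD L) (u : L) (e e' : Fin 4 → L),
  (∀ n : ℕ, n ≠ 0 → v n = 1) → (∀ x y : L, v x < 1 → y ≠ 0 → ∃ n : ℕ, v x ^ n ≤ v y) →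
  f = C (u ^ 2) * ∏ k, ((X - C (e k)) * (X - C (e' k))) → v u = 1 → (∀ k, v (e k) ≤ 1) →
  (∀ k l, k ≠ l → v (e k - e l) = 1) → (∀ k, e k ≠ e' k) →
  (∀ k, v (e' k - e k) < v ((P k).a - e k)) → (∀ k, v ((P k).a - e k) < 1) →
  (∀ k, (P k).OK f N) →
  (∀ k, ∃ i, v (P k).c < v ((P k).A.coeff i) ^ 2 ∨ v (P k).c < v ((P k).B.coeff i) ^ 2) →
  Rk2 P → False

end Pool.Agent.MP_8d06cc_nt.ST
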